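import Pool.Agent.H240.AL.Fin
import Pool.Agent.H240.IX.DefH

/-!
# Generic metrics with complete scars: definitions and statements

`x₀ = L0 / 2` is the coordinate of the closed geodesic.
-/

set_option autoImplicit false
set_option linter.unusedSectionVars false

open Set Filter Topology MeasureTheory
open scoped ContDiff ComplexConjugate Real

noncomputable section

namespace Pool.Agent.H240.GB

open Pool.Agent.Y262.EG Pool.Agent.Y262.EX Pool.Agent.Y262.EL Pool.Agent.Y262.QE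
open Pool.Agent.Y264.QR Pool.Agent.H240.SC Pool.Agent.H240.SG Pool.Agent.H240.CG

/-- total profiles in the collar: zero of the second order at the centre, strictly convex off it -/
structure Tp (F : ℝ → ℝ) : Prop where
  sm : ContDiff ℝ ∞ F
  z0 : F (L0 / 2) = 0
  z1 : deriv F (L0 / 2) = 0
  pos : ∀ x, x ≠ L0 / 2 → |x - L0 / 2| < 4 / 5 * L0 → 0 < deriv (deriv F) x

/-- corrections `ξ` of the profile `F`: constant far from the centre, `F + ξ` vanishes on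
`|x - x₀| ≤ r` and is strictly convex off this interval -/
structure Thin (F ξ : ℝ → ℝ) (c r : ℝ) : Prop where
  rp : 0 < r
  rL : r < L0 / 8
  sm : ContDiff ℝ ∞ ξ
  far : ∀ x, L0 / 2 ≤ |x - L0 / 2| → ξ x = c
  flat : ∀ x, |x - L0 / 2| ≤ r → F x + ξ x = 0
  pos : ∀ x, r < |x - L0 / 2| → |x - L0 / 2| < 4 / 5 * L0 →
    0 < deriv (deriv F) x + deriv (deriv ξ) x

/-- `GB-A`: flattening of the profile on a short interval -/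
def StFlat : Prop :=
  ∀ F : ℝ → ℝ, Tp F → ∀ (N : ℕ) (ε : ℝ), 0 < ε →
    (N ≤ 1 ∨ ∀ j, iteratedDeriv j F (L0 / 2) = 0) →
    ∃ (ξ : ℝ → ℝ) (c r : ℝ), Thin F ξ c r ∧ r < ε ∧ |c| ≤ ε ∧
      ∀ j ≤ N, ∀ x, |iteratedDeriv j ξ x| ≤ ε

/-- closeness of two corrections -/
structure Cl (F ξ ξ' : ℝ → ℝ) (c c' ρ : ℝ) (N : ℕ) : Prop where
  cc : |c' - c| ≤ ρ
  der : ∀ j ≤ N, ∀ x, |iteratedDeriv j (fun x => ξ' x - ξ x) x| ≤ ρ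
  low : ∀ x, |x - L0 / 2| ≤ L0 / 8 → (1 - ρ) * (deriv (deriv F) x + deriv (deriv ξ) x) ≤
    deriv (deriv F) x + deriv (deriv ξ') x

/-- the direction of the second perturbation -/
structure Hh (T h : ℝ → ℝ) (r C0 : ℝ) : Prop where
  sm : ContDiff ℝ ∞ h
  far : ∀ x, L0 / 2 ≤ |x - L0 / 2| → h x = 1
  zer : ∀ x, |x - L0 / 2| ≤ r → h x = 0
  pos : ∀ x, r < |x - L0 / 2| → 0 < h x
  dom : ∀ x, |x - L0 / 2| ≤ 3 / 4 * L0 → 2 * T x ≤ C0 * h x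

/-- `GB-B`: one step -/
def StStep : Prop :=
  ∀ F : ℝ → ℝ, Tp F → ∀ (ξ : ℝ → ℝ) (c r : ℝ), Thin F ξ c r → ∀ (r' ρ : ℝ) (N : ℕ), 0 < r' →
    r' < r → 0 < ρ → ρ ≤ 1 / 2 →
    ∃ (ξ1 : ℝ → ℝ) (c1 : ℝ) (h : ℝ → ℝ) (s0 C0 : ℝ), 0 < s0 ∧ 0 < C0 ∧
      Hh (fun x => F x + ξ1 x) h r' C0 ∧ ∀ s : ℝ, 0 ≤ s → s < s0 →
        Thin F (fun x => ξ1 x + s * h x) (c1 + s) r' ∧
        Cl F ξ (fun x => ξ1 x + s * h x) c (c1 + s) ρ N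

/-- `GB-C`: the limit of a sequence of corrections -/
def StLimit : Prop :=
  ∀ F : ℝ → ℝ, Tp F → ∀ (ξ : ℕ → ℝ → ℝ) (c r ρ : ℕ → ℝ) (m : ℝ),
    (∀ n, Thin F (ξ n) (c n) (r n)) → Tendsto r atTop (𝓝 0) →
    (∀ n, 0 ≤ ρ n) → (∀ n, ρ n ≤ 1 / 2) → Summable ρ → ∑' n, ρ n < m →
    (∀ n, Cl F (ξ n) (ξ (n + 1)) (c n) (c (n + 1)) (ρ n) (n + 2)) →
    (∀ x, L0 / 8 ≤ |x - L0 / 2| → |x - L0 / 2| ≤ L0 / 2 →
      m ≤ deriv (deriv F) x + deriv (deriv (ξ 0)) x) →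
    ∃ (ξ' : ℝ → ℝ) (c' : ℝ), ContDiff ℝ ∞ ξ' ∧ (∀ x, L0 / 2 ≤ |x - L0 / 2| → ξ' x = c') ∧
      (∀ n j : ℕ, j ≤ n + 2 → ∀ x,
        |iteratedDeriv j (fun x => ξ' x - ξ n x) x| ≤ ∑' k, ρ (n + k)) ∧
      (∀ n, |c' - c n| ≤ ∑' k, ρ (n + k)) ∧
      (∀ j, iteratedDeriv j (fun x => F x + ξ' x) (L0 / 2) = 0) ∧
      Tp fun x => F x + ξ' x

/-- smooth conformal factors `exp (2 f)` for which the metric `exp (2 f) g` depends on `x` only in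
the collar, `S` is a closed geodesic of length `2π` and the curvature is negative off `S` -/
structure Cs {M : Type} (pr : ℂ → M) (g : ℝ → ℝ) (c1 : ℝ) (f : M → ℝ) (F : ℝ → ℝ) : Prop where
  sm : ContDiffOn ℝ ∞ (fun z => f (pr z)) Om
  rot : ∀ z : ℂ, |z.re - L0 / 2| < 4 / 5 * L0 → phi g c1 z + f (pr z) = F z.re
  tp : Tp F
  neg : ∀ z ∈ Om, pr z ∉ Gm pr (L0 / 2) → curv (fun z => phi g c1 z + f (pr z)) z < 0

/-- `GB-D`: small perturbations with negative curvature everywhere -/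
def StNeg : Prop :=
  ∀ (M : Type) [MetricSpace M] [CompactSpace M] (pr : ℂ → M) (g X : ℝ → ℝ) (c1 C0 : ℝ)
    (f : M → ℝ) (F : ℝ → ℝ) (O : Set ℂ), PrM Om ac pr → Pool.Agent.H240.IX.Fd O →
    Prof g c1 C0 → Cut X → Cs pr g c1 f F →
    ∃ τ1 : ℝ, 0 < τ1 ∧ ∀ τ : ℝ, 0 < τ → τ < τ1 → ∀ z ∈ Om,
      curv (fun z => phi g c1 z + f (pr z) + τ * Hf (et sqF X 1) 1 z) z < 0

/-- `GB-E`: corrections of the metric -/
def StAdd : Prop :=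
  ∀ (M : Type) [MetricSpace M] [CompactSpace M] (pr : ℂ → M) (g X : ℝ → ℝ) (c1 C0 : ℝ)
    (f e : M → ℝ) (F ξ : ℝ → ℝ) (c : ℝ), PrM Om ac pr →
    Prof g c1 C0 → Cut X → Cs pr g c1 f F → ContDiff ℝ ∞ ξ →
    (∀ x, L0 / 2 ≤ |x - L0 / 2| → ξ x = c) → (∀ z ∈ Om, e (pr z) = Hf ξ c z) →
    Tp (fun x => F x + ξ x) → Cs pr g c1 (fun x => f x + e x) (fun x => F x + ξ x)

/-- `GB-F`: from windows to one sequence -/
def StSeqJ : Prop :=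
  ∀ (M : Type) [MetricSpace M] [CompactSpace M] [MeasurableSpace M] [BorelSpace M]
    (a : C(M, ℝ) → ℝ), (∀ h h', |a h - a h'| ≤ ‖h - h'‖) →
    ∃ T : ℕ → Finset C(M, ℝ), ∀ (ν : Measure M) [IsFiniteMeasure ν] (u : ℕ → M → ℝ) (lam : ℕ → ℝ),
      Tendsto lam atTop atTop → (∀ j, Integrable (fun x => (u j x) ^ 2) ν) →
      (∀ j, ∫ x, (u j x) ^ 2 ∂ν = 1) →
      (∀ n : ℕ, ∃ Λ : ℝ, (n : ℝ) ≤ Λ ∧ n * √Λ <
        ({j | (∀ h ∈ T n, |(∫ x, h x * (u j x) ^ 2 ∂ν) - a h| ≤ 1 / ((n : ℝ) + 1)) ∧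
          lam j ≤ Λ}.ncard : ℝ)) →
      ∃ J : Set ℕ, (∀ C : ℝ, ∃ᶠ Λ : ℝ in atTop, C * √Λ < ({j | j ∈ J ∧ lam j ≤ Λ}.ncard : ℝ)) ∧
        ∀ h : C(M, ℝ), Tendsto (fun j => ∫ x, h x * (u j x) ^ 2 ∂ν) (atTop ⊓ 𝓟 J) (𝓝 (a h))

end Pool.Agent.H240.GB
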